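import Pool.Agent.MP_dbd6a6_co.H70.Link
import Pool.Agent.MP_dbd6a6_co.H70.Core
import Pool.Agent.MP_dbd6a6_co.H92.Mid
import Pool.Agent.MP_dbd6a6_co.H78.Meas
import Pool.Agent.MP_dbd6a6_co.H86.Coef
import Pool.Agent.MP_dbd6a6_co.H2.Theta
import Pool.Agent.MP_dbd6a6_co.H21.Tiny
import Pool.Agent.MP_dbd6a6_co.H29.Box
import Pool.Agent.MP_dbd6a6_co.H53.Small
import Pool.Agent.MP_dbd6a6_co.H27.Sturm
import Pool.Agent.MP_dbd6a6_co.H57.Fin

/-!
Every root of the descent polynomial of stack-sorted permutations is real.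
-/

namespace Pool.Agent.Results.MP_dbd6a6_co.RealRoots

open Polynomial

/-- One pass through a stack. The first argument is the stack (top first), the second the unread
input. Before an entry `a` is pushed, the entries on top of the stack smaller than `a` are popped
to the output; at the end the stack is emptied. -/
def pass : List ℕ → List ℕ → List ℕ
  | st, [] => st
  | st, a :: w => st.takeWhile (· < a) ++ pass (a :: st.dropWhile (· < a)) w

/-- The stack-sorting map `s`. -/
def stackSort (w : List ℕ) : List ℕ := pass [] w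

/-- The number of descents of a word. -/
def des : List ℕ → ℕ
  | a :: b :: w => (if b < a then 1 else 0) + des (b :: w)
  | _ => 0

/-- `A n` is the sum of `X ^ (des (s σ) + 1)` over the permutations `σ` of `1, …, n - 1`. -/
noncomputable def A (n : ℕ) : ℂ[X] :=
  ((List.range' 1 (n - 1)).permutations.map fun σ => X ^ (des (stackSort σ) + 1)).sum

lemma pass_eq : ∀ w st : List ℕ, pass st w = Pool.Agent.MP_dbd6a6_co.H92.pass st w
  | [], _ => rfl
  | a :: w, st => by rw [pass, Pool.Agent.MP_dbd6a6_co.H92.pass, pass_eq w]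

lemma des_eq : ∀ w : List ℕ, des w = Pool.Agent.MP_dbd6a6_co.H92.des w
  | [] => rfl
  | [_] => rfl
  | a :: b :: w => by rw [des, Pool.Agent.MP_dbd6a6_co.H92.des, des_eq (b :: w)]

lemma eval_A (n : ℕ) (z : ℂ) : (A n).eval z = aeval z (Pool.Agent.MP_dbd6a6_co.H92.A n) := by
  simp only [A, Pool.Agent.MP_dbd6a6_co.H92.A, map_list_sum, List.map_map, eval_listSum,
    stackSort, Pool.Agent.MP_dbd6a6_co.H92.stackSort, pass_eq, des_eq]
  congr 2
  ext σ
  simp

open Pool.Agent.MP_dbd6a6_co in
theorem result (n : ℕ) (hn : 1 ≤ n) (z : ℂ) (hz : (A n).IsRoot z) : z.im = 0 := by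
  rw [IsRoot, eval_A] at hz
  exact H27.sturm H57.fin (fun n hn y hy => H70.loc_all H78.meas (H92.mid H70.core) (H29.box H78.meas)
    (H53.small H78.meas H70.core (H29.box H78.meas))
    (H21.tiny H78.meas (H86.coef H78.meas) (H2.theta H78.meas)) n hn y hy) n hn z hz

end Pool.Agent.Results.MP_dbd6a6_co.RealRoots
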